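import Mathlib

set_option autoImplicit false

universe u

namespace Pool.Agent.H324.EX

/-- the elements of the four-group `{1, a, b, a b}` -/
def V4 {Q : Type u} [Group Q] (a b v : Q) : Prop := v = 1 ∨ v = a ∨ v = b ∨ v = a * b

section
variable {Q : Type u} [Group Q] {x a b : Q}

theorem v4_sq (ha : a * a = 1) (hb : b * b = 1) (hab : a * b = b * a) {v : Q} (h : V4 a b v) :
    v * v = 1 := by
  rcases h with rfl | rfl | rfl | rfl
  · simp
  · exact ha
  · exact hb
  · calc a * b * (a * b) = a * b * (b * a) := by rw [← hab]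
      _ = a * (b * b) * a := by simp only [mul_assoc]
      _ = 1 := by rw [hb, mul_one, ha]

theorem v4_mul (ha : a * a = 1) (hb : b * b = 1) (hab : a * b = b * a) {v w : Q} (h : V4 a b v)
    (h' : V4 a b w) : V4 a b (v * w) := by
  have e1 : b * (a * b) = a := by rw [hab, ← mul_assoc, hb, one_mul]
  have e2 : a * (a * b) = b := by rw [← mul_assoc, ha, one_mul]
  have e3 : a * b * a = b := by rw [hab, mul_assoc, ha, mul_one]
  have e4 : a * b * b = a := by rw [mul_assoc, hb, mul_one]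
  have e5 : a * b * (a * b) = 1 := v4_sq ha hb hab (Or.inr (Or.inr (Or.inr rfl)))
  rcases h with h | h | h | h <;> rcases h' with h' | h' | h' | h' <;> rw [h, h'] <;>
    simp [V4, ha, hb, ← hab, e1, e2, e3, e4, e5]

theorem v4_inv (ha : a * a = 1) (hb : b * b = 1) (hab : a * b = b * a) {v : Q} (h : V4 a b v) :
    v⁻¹ = v := inv_eq_of_mul_eq_one_left (v4_sq ha hb hab h)

theorem v4_conj (hxa : x⁻¹ * a * x = b) (hxb : x⁻¹ * b * x = a * b)
    (hb : b * b = 1) (hab : a * b = b * a) {v : Q} (h : V4 a b v) : V4 a b (x⁻¹ * v * x) := by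
  rcases h with rfl | rfl | rfl | rfl
  · left; group
  · right; right; left; exact hxa
  · right; right; right; exact hxb
  · right; left
    have e : x⁻¹ * (a * b) * x = (x⁻¹ * a * x) * (x⁻¹ * b * x) := by group
    rw [e, hxa, hxb, hab, ← mul_assoc, hb, one_mul]

theorem v4_conj_pow (hxa : x⁻¹ * a * x = b) (hxb : x⁻¹ * b * x = a * b)
    (hb : b * b = 1) (hab : a * b = b * a) (i : ℕ) {v : Q} (h : V4 a b v) :
    V4 a b ((x ^ i)⁻¹ * v * x ^ i) := by
  induction i with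
  | zero => simpa using h
  | succ i ih =>
    have e : (x ^ (i + 1))⁻¹ * v * x ^ (i + 1) = x⁻¹ * ((x ^ i)⁻¹ * v * x ^ i) * x := by
      rw [pow_succ]; group
    rw [e]
    exact v4_conj hxa hxb hb hab ih

theorem a4_form (hx : x ^ 3 = 1) (ha : a * a = 1) (hb : b * b = 1) (hab : a * b = b * a)
    (hxa : x⁻¹ * a * x = b) (hxb : x⁻¹ * b * x = a * b)
    (hgen : Subgroup.closure {x, a} = (⊤ : Subgroup Q)) (g : Q) :
    ∃ i : ℕ, ∃ v : Q, V4 a b v ∧ g = x ^ i * v := by
  have hg : g ∈ Subgroup.closure {x, a} := by rw [hgen]; exact Subgroup.mem_top g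
  have kx : ∀ g : Q, (∃ i : ℕ, ∃ v : Q, V4 a b v ∧ g = x ^ i * v) →
      ∃ i : ℕ, ∃ v : Q, V4 a b v ∧ g * x = x ^ i * v := by
    rintro _ ⟨i, v, hv, rfl⟩
    refine ⟨i + 1, x⁻¹ * v * x, v4_conj hxa hxb hb hab hv, ?_⟩
    rw [pow_succ]; group
  have ka : ∀ g : Q, (∃ i : ℕ, ∃ v : Q, V4 a b v ∧ g = x ^ i * v) →
      ∃ i : ℕ, ∃ v : Q, V4 a b v ∧ g * a = x ^ i * v := by
    rintro _ ⟨i, v, hv, rfl⟩
    exact ⟨i, v * a, v4_mul ha hb hab hv (Or.inr (Or.inl rfl)), by rw [mul_assoc]⟩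
  induction hg using Subgroup.closure_induction_right with
  | one => exact ⟨0, 1, Or.inl rfl, by simp⟩
  | mul_right g hg y hy ih =>
    rcases hy with rfl | hy
    · exact kx g ih
    · rw [Set.mem_singleton_iff] at hy
      subst hy
      exact ka g ih
  | mul_inv_cancel g hg y hy ih =>
    rcases hy with rfl | hy
    · have e : g * y⁻¹ = g * y * y := by
        have : y⁻¹ = y * y := by
          apply inv_eq_of_mul_eq_one_left
          rw [← hx, pow_succ, pow_two]
        rw [this, mul_assoc]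
      rw [e]
      exact kx _ (kx g ih)
    · rw [Set.mem_singleton_iff] at hy
      subst hy
      rw [inv_eq_of_mul_eq_one_left ha]
      exact ka g ih

theorem a4_sq (hx : x ^ 3 = 1) (ha : a * a = 1) (hb : b * b = 1) (hab : a * b = b * a)
    (hxa : x⁻¹ * a * x = b) (hxb : x⁻¹ * b * x = a * b)
    (hgen : Subgroup.closure {x, a} = (⊤ : Subgroup Q)) {t : Q} (ht : t ^ 2 = 1) :
    V4 a b t := by
  obtain ⟨i, v, hv, rfl⟩ := a4_form hx ha hb hab hxa hxb hgen t
  have h1 := v4_mul ha hb hab (v4_conj_pow hxa hxb hb hab i hv) hv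
  have e : (x ^ i * v) ^ 2 = (x ^ i * x ^ i) * ((x ^ i)⁻¹ * v * x ^ i * v) := by
    rw [pow_two]; group
  rw [e] at ht
  have h2 := v4_sq ha hb hab h1
  have h3 : x ^ i * x ^ i = ((x ^ i)⁻¹ * v * x ^ i * v)⁻¹ := eq_inv_of_mul_eq_one_left ht
  rw [v4_inv ha hb hab h1] at h3
  have h4 : (x ^ i * x ^ i) * (x ^ i * x ^ i) = 1 := by rw [h3]; exact h2
  have h5 : (x ^ i) ^ 3 = 1 := by rw [← pow_mul, mul_comm, pow_mul, hx, one_pow]
  have h6 : x ^ i = 1 := by
    have : (x ^ i * x ^ i) * (x ^ i * x ^ i) = (x ^ i) ^ 3 * x ^ i := by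
      rw [pow_succ, pow_two]; simp only [mul_assoc]
    rw [this, h5, one_mul] at h4
    exact h4
  rw [h6, one_mul]
  exact hv

theorem a4_card (hx : x ^ 3 = 1) (ha : a * a = 1) (hb : b * b = 1) (hab : a * b = b * a)
    (hxa : x⁻¹ * a * x = b) (hxb : x⁻¹ * b * x = a * b)
    (hgen : Subgroup.closure {x, a} = (⊤ : Subgroup Q)) : Nat.card Q ≤ 12 := by
  let f : Fin 3 × Fin 4 → Q := fun p => x ^ (p.1 : ℕ) * (![1, a, b, a * b] p.2)
  have hf : Function.Surjective f := by
    intro g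
    obtain ⟨i, v, hv, rfl⟩ := a4_form hx ha hb hab hxa hxb hgen g
    have h1 : ∃ j : Fin 4, ![1, a, b, a * b] j = v := by
      rcases hv with rfl | rfl | rfl | rfl
      · exact ⟨0, rfl⟩
      · exact ⟨1, rfl⟩
      · exact ⟨2, rfl⟩
      · exact ⟨3, rfl⟩
    obtain ⟨j, hj⟩ := h1
    refine ⟨(⟨i % 3, Nat.mod_lt _ (by norm_num)⟩, j), ?_⟩
    show x ^ (i % 3) * (![1, a, b, a * b] j) = x ^ i * v
    rw [hj]
    congr 1
    conv_rhs => rw [← Nat.mod_add_div i 3, pow_add, pow_mul, hx, one_pow, mul_one]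
  have := Nat.card_le_card_of_surjective f hf
  simpa using this

end

end Pool.Agent.H324.EX
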