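import Mathlib

set_option autoImplicit false

universe u

namespace Pool.Agent.H324.EX

theorem cgA {M : Type u} [AddCommGroup M] (r s t p q : M) (h1 : t + s + r = 0)
    (h2 : -t + q + r = 0) (h3 : p + -s + r = 0) (h4 : -p + -q + r = 0) : 4 • r = 0 := by
  have e : 4 • r = (t + s + r) + (-t + q + r) + (p + -s + r) + (-p + -q + r) := by abel
  rw [e, h1, h2, h3, h4]; simp

theorem cgM {M : Type u} [CommGroup M] (r s t p q : M) (h1 : t * s * r = 1)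
    (h2 : t⁻¹ * q * r = 1) (h3 : p * s⁻¹ * r = 1) (h4 : p⁻¹ * q⁻¹ * r = 1) : r ^ 4 = 1 :=
  cgA (M := Additive M) r s t p q h1 h2 h3 h4

theorem cgN {H : Type u} [Group H] (N : Subgroup H) (hN : ∀ v ∈ N, ∀ w ∈ N, v * w = w * v)
    {r s t p q : H} (hr : r ∈ N) (hs : s ∈ N) (ht : t ∈ N) (hp : p ∈ N) (hq : q ∈ N)
    (h1 : t * s * r = 1)
    (h2 : t⁻¹ * q * r = 1) (h3 : p * s⁻¹ * r = 1) (h4 : p⁻¹ * q⁻¹ * r = 1) : r ^ 4 = 1 := by
  let _ : CommGroup N :=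
    { (inferInstance : Group N) with
      mul_comm := fun v w => Subtype.ext (hN v.1 v.2 w.1 w.2) }
  have h := cgM (M := N) ⟨r, hr⟩ ⟨s, hs⟩ ⟨t, ht⟩ ⟨p, hp⟩ ⟨q, hq⟩ (Subtype.ext h1) (Subtype.ext h2)
    (Subtype.ext h3) (Subtype.ext h4)
  exact congrArg Subtype.val h

theorem cube_id {H : Type u} [Group H] {X r : H} (hX : X ^ 3 = 1) (h : (X * r) ^ 3 = 1) :
    (X⁻¹ * (X⁻¹ * r * X) * X) * (X⁻¹ * r * X) * r = 1 := by
  have e : (X * r) * (X * r) * (X * r) =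
      (X * X * X) * ((X⁻¹ * (X⁻¹ * r * X) * X) * (X⁻¹ * r * X) * r) := by group
  rw [pow_succ, pow_two] at hX h
  rw [hX, one_mul, h] at e
  exact e.symm

theorem sw {H : Type u} [Group H] {a b : H} (hab : a * b = b * a) (u : H) :
    b * (a * u * a) * b = a * (b * u * b) * a := by
  calc b * (a * u * a) * b = (b * a) * u * (a * b) := by simp only [mul_assoc]
    _ = (a * b) * u * (b * a) := by rw [← hab]
    _ = a * (b * u * b) * a := by simp only [mul_assoc]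

theorem dbl {H : Type u} [Group H] {a : H} (ha : a * a = 1) (u : H) :
    a * (a * u * a) * a = u := by
  calc a * (a * u * a) * a = (a * a) * u * (a * a) := by simp only [mul_assoc]
    _ = u := by rw [ha, one_mul, mul_one]

theorem cinv {H : Type u} [Group H] {a : H} (ia : a⁻¹ = a) (u : H) :
    (a * u * a)⁻¹ = a * u⁻¹ * a := by
  rw [mul_inv_rev, mul_inv_rev, ia, mul_assoc]

/-- the abelian case -/
theorem abelian_case {H : Type u} [Group H] (N : Subgroup H)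
    (hN : ∀ v ∈ N, ∀ w ∈ N, v * w = w * v) (hn : ∀ g : H, ∀ w ∈ N, g⁻¹ * w * g ∈ N)
    {x a b r : H} (hx : x ^ 3 = 1) (ha : a * a = 1) (hb : b * b = 1) (hab : a * b = b * a)
    (hxa : x⁻¹ * a * x = b) (hxb : x⁻¹ * b * x = a * b)
    (hr : r ∈ N) (hr3 : r ^ 3 = 1) (hra : a * r * a = r⁻¹)
    (k1 : (x * a) ^ 3 = 1) (k2 : (x * b) ^ 3 = 1) (k3 : (x * (a * b)) ^ 3 = 1)
    (h1 : (x * r) ^ 3 = 1) (h2 : (x * a * r) ^ 3 = 1) (h3 : (x * b * r) ^ 3 = 1)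
    (h4 : (x * (a * b) * r) ^ 3 = 1) : r = 1 := by
  have ia : a⁻¹ = a := inv_eq_of_mul_eq_one_left ha
  have ib : b⁻¹ = b := inv_eq_of_mul_eq_one_left hb
  obtain ⟨s, hs⟩ : ∃ s, s = x⁻¹ * r * x := ⟨_, rfl⟩
  obtain ⟨t, ht⟩ : ∃ t, t = x⁻¹ * s * x := ⟨_, rfl⟩
  have hsN : s ∈ N := hs ▸ hn x r hr
  have htN : t ∈ N := ht ▸ hn x s hsN
  have hpN : a * t * a ∈ N := by have := hn a t htN; rwa [ia] at this
  have hqN : a * s * a ∈ N := by have := hn a s hsN; rwa [ia] at this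
  -- `s` is inverted by `b`
  have hsb : b * s * b = s⁻¹ := by
    have e : b * s * b = x⁻¹ * (a * r * a) * x := by
      rw [hs, ← hxa]; group
    rw [e, hra, hs]; group
  -- `t` is inverted by `a b`
  have htc : (a * b) * t * (a * b) = t⁻¹ := by
    have e : (a * b) * t * (a * b) = x⁻¹ * (b * s * b) * x := by
      rw [ht, ← hxb]; group
    rw [e, hsb, ht]; group
  have htb : a * (b * t * b) * a = t⁻¹ := by
    have e : a * (b * t * b) * a = (a * b) * t * (b * a) := by simp only [mul_assoc]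
    rw [e, ← hab, htc]
  have hbt : b * t * b = a * t⁻¹ * a := by
    rw [← htb, dbl ha]
  have i1 := cube_id hx h1
  have i2 := cube_id k1 h2
  have i3 := cube_id k2 h3
  have i4 := cube_id k3 h4
  -- identity 1
  have j1 : t * s * r = 1 := by rw [ht, hs]; exact i1
  -- identity 2
  have f2 : (x * a)⁻¹ * r * (x * a) = a * s * a := by
    rw [mul_inv_rev, ia, hs]; group
  have g2 : (x * a)⁻¹ * (a * s * a) * (x * a) = t⁻¹ := by
    have e : (x * a)⁻¹ * (a * s * a) * (x * a) =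
        a⁻¹ * ((x⁻¹ * a * x) * (x⁻¹ * s * x) * (x⁻¹ * a * x)) * a := by group
    rw [e, hxa, ← ht, ia, htb]
  have j2 : t⁻¹ * (a * s * a) * r = 1 := by
    rw [f2, g2] at i2; exact i2
  -- identity 3
  have f3 : (x * b)⁻¹ * r * (x * b) = s⁻¹ := by
    have e : (x * b)⁻¹ * r * (x * b) = b⁻¹ * (x⁻¹ * r * x) * b := by group
    rw [e, ← hs, ib, hsb]
  have g3 : (x * b)⁻¹ * s⁻¹ * (x * b) = a * t * a := by
    have e : (x * b)⁻¹ * s⁻¹ * (x * b) = (b⁻¹ * (x⁻¹ * s * x) * b)⁻¹ := by group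
    rw [e, ← ht, ib, hbt, cinv ia, inv_inv]
  have j3 : (a * t * a) * s⁻¹ * r = 1 := by
    rw [f3, g3] at i3; exact i3
  -- identity 4
  have f4 : (x * (a * b))⁻¹ * r * (x * (a * b)) = (a * s * a)⁻¹ := by
    have e : (x * (a * b))⁻¹ * r * (x * (a * b)) = b⁻¹ * (a⁻¹ * (x⁻¹ * r * x) * a) * b := by group
    rw [e, ← hs, ia, ib, sw hab, hsb, cinv ia]
  have g4 : (x * (a * b))⁻¹ * (a * s * a)⁻¹ * (x * (a * b)) = (a * t * a)⁻¹ := by
    have e : (x * (a * b))⁻¹ * (a * s * a)⁻¹ * (x * (a * b)) =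
        (b⁻¹ * (a⁻¹ * ((x⁻¹ * a * x) * (x⁻¹ * s * x) * (x⁻¹ * a * x)) * a) * b)⁻¹ := by group
    rw [e, hxa, ← ht, ia, ib, sw hab, dbl hb]
  have j4 : (a * t * a)⁻¹ * (a * s * a)⁻¹ * r = 1 := by
    rw [f4, g4] at i4; exact i4
  have r4 := cgN N hN hr hsN htN hpN hqN j1 j2 j3 j4
  have e5 : r = r ^ 4 * (r ^ 3)⁻¹ := by group
  rw [e5, r4, hr3, inv_one, one_mul]

end Pool.Agent.H324.EX
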