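import Mathlib

set_option autoImplicit false

universe u

namespace Pool.Agent.H324.EX

open Subgroup

section
variable {G : Type u} [Group G]

/-- an involution which normalizes a subgroup of odd index is in the subgroup -/
theorem mem_of_odd (C : Subgroup G) (hC : C.index = 3) {a : G} (ha : a ^ 2 = 1)
    (hn : a ∈ normalizer (C : Set G)) : a ∈ C := by
  have hle : C ≤ normalizer (C : Set G) := le_normalizer
  haveI : (C.subgroupOf (normalizer (C : Set G))).Normal := normal_in_normalizer
  obtain ⟨q, hq⟩ : ∃ q : normalizer (C : Set G) ⧸ C.subgroupOf (normalizer (C : Set G)),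
      q = QuotientGroup.mk ⟨a, hn⟩ := ⟨_, rfl⟩
  have h2 : q ^ 2 = 1 := by
    rw [hq, ← QuotientGroup.mk_pow]
    have : (⟨a, hn⟩ : normalizer (C : Set G)) ^ 2 = 1 := Subtype.ext ha
    rw [this]; rfl
  have h3 : q ^ 3 = 1 := by
    have h4 : C.relIndex (normalizer (C : Set G)) ∣ 3 := by
      rw [← hC]; exact relIndex_dvd_index_of_le hle
    have h5 : Nat.card (normalizer (C : Set G) ⧸ C.subgroupOf (normalizer (C : Set G))) ∣ 3 := h4
    exact orderOf_dvd_iff_pow_eq_one.mp ((orderOf_dvd_natCard q).trans h5)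
  have h1 : q = 1 := by
    rw [pow_succ, h2, one_mul] at h3; exact h3
  rw [hq] at h1
  exact mem_subgroupOf.mp ((QuotientGroup.eq_one_iff _).mp h1)

theorem conv {x y z : G} (hgen : closure {x, y, z} = (⊤ : Subgroup G)) (hx : x ^ 3 = 1)
    (hy : y ^ 2 = 1) (hz : z ^ 2 = 1) (hxy : (x * y) ^ 3 = 1) (hyz : (y * z) ^ 3 = 1)
    (hfin : Finite G) (hcard : Nat.card G ≤ 12) {a b : G} (ha : a ^ 2 = 1) (hb : b ^ 2 = 1) :
    orderOf (a * b) ≠ 4 := by
  intro h4
  by_cases hx1 : x = 1
  · have hy1 : y = 1 := by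
      rw [hx1, one_mul, pow_succ, hy, one_mul] at hxy; exact hxy
    have hz1 : z = 1 := by
      rw [hy1, one_mul, pow_succ, hz, one_mul] at hyz; exact hyz
    have h1 : (⊤ : Subgroup G) = ⊥ := by
      rw [← hgen, hx1, hy1, hz1]; simp
    have h2 : a * b ∈ (⊤ : Subgroup G) := mem_top _
    rw [h1, mem_bot] at h2
    rw [h2, orderOf_one] at h4
    norm_num at h4
  · have hox : orderOf x = 3 := orderOf_eq_prime hx hx1
    have h3 : 3 ∣ Nat.card G := by rw [← hox]; exact orderOf_dvd_natCard x
    have hC4 : Nat.card (zpowers (a * b)) = 4 := by rw [Nat.card_zpowers, h4]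
    have hmul := (zpowers (a * b)).card_mul_index
    rw [hC4] at hmul
    have hpos : 0 < Nat.card G := Nat.card_pos
    have hidx : (zpowers (a * b)).index = 3 := by omega
    have ia : a⁻¹ = a := inv_eq_of_mul_eq_one_left (by rw [← pow_two]; exact ha)
    have ib : b⁻¹ = b := inv_eq_of_mul_eq_one_left (by rw [← pow_two]; exact hb)
    have hconj : a * (a * b) * a⁻¹ = (a * b)⁻¹ := by
      rw [mul_inv_rev, ib, ia, ← mul_assoc, ← pow_two, ha, one_mul]
    have hn : a ∈ normalizer ((zpowers (a * b) : Subgroup G) : Set G) := by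
      rw [mem_normalizer_iff]
      intro h
      constructor
      · intro hh
        obtain ⟨n, rfl⟩ := mem_zpowers_iff.mp hh
        rw [← conj_zpow, hconj]
        exact zpow_mem (inv_mem (mem_zpowers _)) n
      · intro hh
        obtain ⟨n, hn⟩ := mem_zpowers_iff.mp hh
        have e : h = a * (a * b) ^ n * a⁻¹ := by
          rw [hn, ia]
          have : a * (a * h * a) * a = (a * a) * h * (a * a) := by simp only [mul_assoc]
          rw [this, ← pow_two, ha, one_mul, mul_one]
        rw [e, ← conj_zpow, hconj]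
        exact zpow_mem (inv_mem (mem_zpowers _)) n
    have hmem := mem_of_odd _ hidx ha hn
    obtain ⟨n, hn'⟩ := mem_zpowers_iff.mp hmem
    have hcomm : a * (a * b) = (a * b) * a := by
      have hc : Commute ((a * b) ^ n) (a * b) := (Commute.refl (a * b)).zpow_left n
      rw [hn'] at hc
      exact hc.eq
    have h5 : (a * b) ^ 2 = 1 := by
      have : a * (a * b) * a⁻¹ = a * b := by rw [hcomm]; group
      rw [hconj] at this
      rw [pow_two]
      nth_rewrite 1 [← this]
      group
    have h6 := orderOf_dvd_of_pow_eq_one h5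
    rw [h4] at h6
    norm_num at h6

theorem conv6 {x y z : G} (hgen : closure {x, y, z} = (⊤ : Subgroup G)) (hx : x ^ 3 = 1)
    (hy : y ^ 2 = 1) (hz : z ^ 2 = 1) (hxy : (x * y) ^ 3 = 1) (hyz : (y * z) ^ 3 = 1)
    (hfin : Finite G) (hcard : Nat.card G ≤ 12) (h9 : ∀ g : G, orderOf g ≠ 9) {a b : G}
    (ha : a ^ 2 = 1) (hb : b ^ 2 = 1) : (a * b) ^ 6 = 1 := by
  have h4 := conv hgen hx hy hz hxy hyz hfin hcard ha hb
  have h12 : orderOf (a * b) ≠ 12 := by
    intro h
    have ia : a⁻¹ = a := inv_eq_of_mul_eq_one_left (by rw [← pow_two]; exact ha)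
    have ib : b⁻¹ = b := inv_eq_of_mul_eq_one_left (by rw [← pow_two]; exact hb)
    have e : (a * b) ^ 3 = a * (b * (a * b * a) * b) := by
      rw [pow_succ, pow_two]; simp only [mul_assoc]
    have hb' : (b * (a * b * a) * b) ^ 2 = 1 := by
      have e3 : b * (a * b * a) * b = (b * a) * b * (b * a)⁻¹ := by
        rw [mul_inv_rev, ia, ib]; simp only [mul_assoc]
      rw [e3, conj_pow, hb]; group
    have h5 := conv hgen hx hy hz hxy hyz hfin hcard ha hb'
    rw [← e] at h5
    apply h5
    rw [orderOf_pow' (a * b) (by norm_num : (3 : ℕ) ≠ 0), h]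
    norm_num
  by_cases hx1 : x = 1
  · have hy1 : y = 1 := by
      rw [hx1, one_mul, pow_succ, hy, one_mul] at hxy; exact hxy
    have hz1 : z = 1 := by
      rw [hy1, one_mul, pow_succ, hz, one_mul] at hyz; exact hyz
    have h1 : (⊤ : Subgroup G) = ⊥ := by
      rw [← hgen, hx1, hy1, hz1]; simp
    have h2 : a * b ∈ (⊤ : Subgroup G) := mem_top _
    rw [h1, mem_bot] at h2
    rw [h2, one_pow]
  · have hox : orderOf x = 3 := orderOf_eq_prime hx hx1
    have h3 : 3 ∣ Nat.card G := by rw [← hox]; exact orderOf_dvd_natCard x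
    have hd : orderOf (a * b) ∣ Nat.card G := orderOf_dvd_natCard _
    have hpos : 0 < Nat.card G := Nat.card_pos
    have h9' := h9 (a * b)
    apply orderOf_dvd_iff_pow_eq_one.mp
    generalize orderOf (a * b) = n at *
    generalize Nat.card G = m at *
    have hm : m = 3 ∨ m = 6 ∨ m = 9 ∨ m = 12 := by omega
    have hn : n ≤ m := Nat.le_of_dvd hpos hd
    rcases hm with rfl | rfl | rfl | rfl <;> interval_cases n <;> revert hd h4 h12 h9' <;> decide

end

end Pool.Agent.H324.EX
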