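import Pool.Agent.H324.DT.Main
import Pool.Agent.H324.EX.Ab
import Pool.Agent.H324.EX.A4

/-!
The groups `⟨x, y, z⟩` of exponent dividing twelve with `x³ = y² = z² = (xy)³ = (yz)³ = 1` in
which products of two involutions do not have order four.
-/

set_option autoImplicit false

universe u

namespace Pool.Agent.H324.EX

open Subgroup
open Pool.Agent.H324.Alg
open Pool.Agent.H324.TC
open scoped commutatorElement

section
variable {G : Type u} [Group G]

theorem cube_swap {p q : G} (h : (p * q) ^ 3 = 1) : (q * p) ^ 3 = 1 := by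
  have e : q * p = p⁻¹ * (p * q) * p⁻¹⁻¹ := by group
  rw [e, conj_pow, h]; group

theorem three_of (h9 : ∀ g : G, orderOf g ≠ 9) {g : G} {k : ℕ} (h : g ^ 3 ^ k = 1) :
    g ^ 3 = 1 := by
  induction k with
  | zero =>
    rw [pow_zero, pow_one] at h
    rw [h, one_pow]
  | succ k ih =>
    cases k with
    | zero => simpa using h
    | succ k =>
      apply ih
      have e1 : (g ^ 3 ^ k) ^ 9 = 1 := by
        rw [← pow_mul, show 3 ^ k * 9 = 3 ^ (k + 1 + 1) by ring]; exact h
      have h2 : orderOf (g ^ 3 ^ k) ∣ 9 := orderOf_dvd_of_pow_eq_one e1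
      have h4 : orderOf (g ^ 3 ^ k) = 1 ∨ orderOf (g ^ 3 ^ k) = 3 ∨ orderOf (g ^ 3 ^ k) = 9 := by
        have : orderOf (g ^ 3 ^ k) ∈ Nat.divisors 9 := Nat.mem_divisors.mpr ⟨h2, by norm_num⟩
        have e : Nat.divisors 9 = {1, 3, 9} := by decide +kernel
        rw [e] at this
        simpa using this
      have e2 : (g ^ 3 ^ k) ^ 3 = 1 := by
        apply orderOf_dvd_iff_pow_eq_one.mp
        rcases h4 with h | h | h
        · rw [h]; norm_num
        · rw [h]
        · exact absurd h (h9 _)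
      rw [← pow_mul, ← pow_succ] at e2
      exact e2

theorem h9_of' (h9 : ∀ g : G, orderOf g ≠ 9) : H9 G := by
  intro a b c d _ _ _ _ h
  exact three_of h9 (k := 2) (by rw [show 3 ^ 2 = 9 by norm_num]; exact h)

/-- `G` is finite if the subgroup generated by the involutions is locally finite. -/
theorem fin_of {x y z : G} (H : H2 G) (h9 : H9 G)
    (hgen : closure {x, y, z} = (⊤ : Subgroup G)) (hx : x ^ 3 = 1)
    (hy : y ^ 2 = 1) (hz : z ^ 2 = 1) : Finite G := by
  classical
  have hfg : (⊤ : Subgroup G).FG := ⟨{x, y, z}, by rw [← hgen]; simp⟩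
  have hTn : (T G).Normal := t_normal
  have hq : closure {QuotientGroup.mk' (T G) x} = (⊤ : Subgroup (G ⧸ T G)) := by
    rw [eq_top_iff, ← map_top_of_surjective _ (QuotientGroup.mk'_surjective (T G)), ← hgen,
      MonoidHom.map_closure, closure_le]
    rintro _ ⟨w, hw, rfl⟩
    rcases hw with rfl | rfl | hw
    · exact subset_closure rfl
    · have : QuotientGroup.mk' (T G) w = 1 :=
        (QuotientGroup.eq_one_iff w).mpr (subset_closure hy)
      rw [this]; exact one_mem _
    · rw [Set.mem_singleton_iff] at hw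
      subst hw
      have : QuotientGroup.mk' (T G) w = 1 :=
        (QuotientGroup.eq_one_iff w).mpr (subset_closure hz)
      rw [this]; exact one_mem _
  have hfq : Finite (G ⧸ T G) := by
    rw [← zpowers_eq_closure] at hq
    have h1 : (zpowers (QuotientGroup.mk' (T G) x) : Set (G ⧸ T G)).Finite := by
      apply finite_zpowers.mpr
      exact isOfFinOrder_iff_pow_eq_one.mpr ⟨3, by norm_num, by rw [← map_pow, hx, map_one]⟩
    rw [hq] at h1
    exact Set.finite_univ_iff.mp h1
  have hidx : ((T G).subgroupOf ⊤).index ≠ 0 := by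
    have h1 : (T G).index ≠ 0 := by
      have : (T G).FiniteIndex := Subgroup.finiteIndex_of_finite_quotient
      exact this.index_ne_zero
    have h2 : ((T G).subgroupOf ⊤).index = (T G).index := relIndex_top_right (T G)
    rw [h2]; exact h1
  have hfin0 : Finite (⊤ : Subgroup G) := finite_of_sub hfg (t_lf H h9) hidx
  exact Finite.of_equiv _ (Subgroup.topEquiv (G := G)).toEquiv

theorem gen2 {Q : Type u} [Group Q] (f : G →* Q) (hf : Function.Surjective f) {x y z : G}
    (hgen : closure {x, y, z} = (⊤ : Subgroup G)) (h : f z = f y) :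
    closure {f x, f y} = (⊤ : Subgroup Q) := by
  rw [eq_top_iff, ← map_top_of_surjective f hf, ← hgen, MonoidHom.map_closure, closure_le]
  rintro _ ⟨w, hw, rfl⟩
  rcases hw with rfl | rfl | hw
  · exact subset_closure (Or.inl rfl)
  · exact subset_closure (Or.inr rfl)
  · rw [Set.mem_singleton_iff] at hw
    subst hw
    rw [h]
    exact subset_closure (Or.inr rfl)

/-- the relations of the alternating group of degree four -/
theorem a4_rel {x y : G} (hx : x ^ 3 = 1) (hy : y * y = 1) (hxy : (x * y) ^ 3 = 1) :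
    x⁻¹ * (x⁻¹ * y * x) * x = y * (x⁻¹ * y * x) ∧
      y * (x⁻¹ * y * x) = (x⁻¹ * y * x) * y ∧ (x⁻¹ * y * x) * (x⁻¹ * y * x) = 1 := by
  have iy : y⁻¹ = y := inv_eq_of_mul_eq_one_left hy
  have hx2 : x * x = x⁻¹ := by
    apply eq_inv_of_mul_eq_one_left
    rw [← hx, pow_succ, pow_two]
  have hx3 : x⁻¹ * x⁻¹ = x := by
    rw [← hx2]
    calc x * x * (x * x) = x * x * x * x := by simp only [mul_assoc]
      _ = x := by
        have : x * x * x = 1 := by rw [← hx, pow_succ, pow_two]
        rw [this, one_mul]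
  have h1 : x * y * x⁻¹ = y * (x⁻¹ * y * x) := by
    have h2 : (x * y) * (x * y) * (x * y) = 1 := by rw [← hxy, pow_succ, pow_two]
    have h3 : x * y = ((x * y) * (x * y))⁻¹ := eq_inv_of_mul_eq_one_right h2
    have h4 : x * y = y * x⁻¹ * y * x⁻¹ := by
      rw [mul_inv_rev, mul_inv_rev, iy] at h3
      rw [h3]; simp only [mul_assoc]
    calc x * y * x⁻¹ = y * x⁻¹ * y * x⁻¹ * x⁻¹ := by rw [h4]
      _ = y * x⁻¹ * y * (x⁻¹ * x⁻¹) := by simp only [mul_assoc]
      _ = y * (x⁻¹ * y * x) := by rw [hx3]; simp only [mul_assoc]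
  have h5 : x⁻¹ * (x⁻¹ * y * x) * x = y * (x⁻¹ * y * x) := by
    calc x⁻¹ * (x⁻¹ * y * x) * x = (x⁻¹ * x⁻¹) * y * (x * x) := by simp only [mul_assoc]
      _ = x * y * x⁻¹ := by rw [hx3, hx2]
      _ = _ := h1
  have h6 : (x⁻¹ * y * x) * (x⁻¹ * y * x) = 1 := by
    have : (x⁻¹ * y * x) * (x⁻¹ * y * x) = x⁻¹ * (y * y) * x := by group
    rw [this, hy]; group
  refine ⟨h5, ?_, h6⟩
  have h7 : (y * (x⁻¹ * y * x)) * (y * (x⁻¹ * y * x)) = 1 := by
    rw [← h1]
    have : x * y * x⁻¹ * (x * y * x⁻¹) = x * (y * y) * x⁻¹ := by group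
    rw [this, hy]; group
  have h8 : (y * (x⁻¹ * y * x))⁻¹ = y * (x⁻¹ * y * x) := inv_eq_of_mul_eq_one_left h7
  rw [mul_inv_rev, iy, inv_eq_of_mul_eq_one_left h6] at h8
  exact h8.symm

theorem main {x y z : G} (hgen : closure {x, y, z} = (⊤ : Subgroup G)) (hx : x ^ 3 = 1)
    (hy : y ^ 2 = 1) (hz : z ^ 2 = 1) (hxy : (x * y) ^ 3 = 1) (hyz : (y * z) ^ 3 = 1)
    (hn9 : ∀ g : G, orderOf g ≠ 9)
    (H : ∀ a b : G, a ^ 2 = 1 → b ^ 2 = 1 → (a * b) ^ 6 = 1) :
    Finite G ∧ Nat.card G ≤ 12 := by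
  classical
  have h9 : H9 G := h9_of' hn9
  have hfin : Finite G := fin_of H h9 hgen hx hy hz
  have hyy : y * y = 1 := by rw [← pow_two]; exact hy
  have hzz : z * z = 1 := by rw [← pow_two]; exact hz
  have iy : y⁻¹ = y := inv_eq_of_mul_eq_one_left hyy
  have iz : z⁻¹ = z := inv_eq_of_mul_eq_one_left hzz
  haveI hRn : (R G).Normal := r_normal
  have hRk := (r_lf H h9).2
  obtain ⟨hxb, hab, hbb⟩ := a4_rel hx hyy hxy
  obtain ⟨b, hb⟩ : ∃ b, b = x⁻¹ * y * x := ⟨_, rfl⟩
  rw [← hb] at hxb hab hbb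
  -- elements of the cosets of order three
  have hcoset : ∀ X : G, X ^ 3 = 1 → ∀ w ∈ R G, (X * w) ^ 3 = 1 := by
    intro X hX w hw
    have h1 : (X * w) ^ 3 ∈ R G := by
      rw [← QuotientGroup.eq_one_iff, QuotientGroup.mk_pow, QuotientGroup.mk_mul,
        (QuotientGroup.eq_one_iff w).mpr hw, mul_one, ← QuotientGroup.mk_pow, hX]
      rfl
    obtain ⟨k, hk⟩ := hRk _ h1
    have h2 : (X * w) ^ 3 ^ (k + 1) = 1 := by
      rw [pow_succ', pow_mul]; exact hk
    exact three_of hn9 h2
  have hR3 : ∀ w ∈ R G, w ^ 3 = 1 := by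
    intro w hw
    have := hcoset 1 (one_pow 3) w hw
    rwa [one_mul] at this
  -- the element `y z`
  have hrT : y * z ∈ T G := mul_mem (subset_closure hy) (subset_closure hz)
  have hrR : y * z ∈ R G := by
    have h1 := sq_mem_r H _ hrT
    have h2 : y * z = ((y * z) ^ 2)⁻¹ * (y * z) ^ 3 := by group
    rw [h2, hyz, mul_one]
    exact inv_mem h1
  -- the quotient by the derived subgroup of `R`
  obtain ⟨A, hA⟩ : ∃ A : Subgroup G, A = ⁅R G, R G⁆ := ⟨_, rfl⟩
  haveI hAn : A.Normal := by rw [hA]; infer_instance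
  have hsurj : Function.Surjective (QuotientGroup.mk' A) := QuotientGroup.mk'_surjective A
  have hrA : y * z ∈ A := by
    rw [← QuotientGroup.eq_one_iff]
    show (QuotientGroup.mk' A) (y * z) = 1
    have c1 : (x * y) ^ 3 = 1 := hxy
    have c2 : (x * b) ^ 3 = 1 := by
      have : x * b = y * x := by rw [hb]; group
      rw [this]; exact cube_swap hxy
    have c3 : (x * (y * b)) ^ 3 = 1 := by
      have : x * (y * b) = b * x := by rw [← hxb]; group
      rw [this]; exact cube_swap c2
    have hra : y * (y * z) * y = (y * z)⁻¹ := by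
      rw [mul_inv_rev, iy, iz, ← mul_assoc, hyy, one_mul]
    refine abelian_case ((R G).map (QuotientGroup.mk' A)) ?_ ?_
      (x := (QuotientGroup.mk' A) x) (a := (QuotientGroup.mk' A) y) (b := (QuotientGroup.mk' A) b)
      ?_ ?_ ?_ ?_ ?_ ?_ ?_ ?_ ?_ ?_ ?_ ?_ ?_ ?_ ?_ ?_
    · rintro _ ⟨v, hv, rfl⟩ _ ⟨w, hw, rfl⟩
      have h1 : ⁅v, w⁆ ∈ A := by rw [hA]; exact commutator_mem_commutator hv hw
      have h2 : (QuotientGroup.mk' A) ⁅v, w⁆ = 1 := (QuotientGroup.eq_one_iff _).mpr h1
      rw [map_commutatorElement, commutatorElement_eq_one_iff_mul_comm] at h2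
      exact h2
    · rintro g _ ⟨w, hw, rfl⟩
      obtain ⟨g, rfl⟩ := hsurj g
      refine ⟨g⁻¹ * w * g, ?_, by rw [map_mul, map_mul, map_inv]⟩
      have := hRn.conj_mem w hw g⁻¹
      rwa [inv_inv] at this
    · rw [← map_pow, hx, map_one]
    · rw [← map_mul, hyy, map_one]
    · rw [← map_mul, hbb, map_one]
    · rw [← map_mul, ← map_mul, hab]
    · rw [← map_inv, ← map_mul, ← map_mul, ← hb]
    · rw [← map_inv, ← map_mul, ← map_mul, ← map_mul, hxb]
    · exact ⟨_, hrR, rfl⟩
    · rw [← map_pow, hyz, map_one]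
    · rw [← map_mul, ← map_mul, hra, map_inv]
    · rw [← map_mul, ← map_pow, c1, map_one]
    · rw [← map_mul, ← map_pow, c2, map_one]
    · rw [← map_mul, ← map_mul, ← map_pow, c3, map_one]
    · rw [← map_mul, ← map_pow, hcoset x hx _ hrR, map_one]
    · rw [← map_mul, ← map_mul, ← map_pow, hcoset _ c1 _ hrR, map_one]
    · rw [← map_mul, ← map_mul, ← map_pow, hcoset _ c2 _ hrR, map_one]
    · rw [← map_mul, ← map_mul, ← map_mul, ← map_pow, hcoset _ c3 _ hrR, map_one]
  -- `R` is contained in `A`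
  have hRA : R G ≤ A := by
    have hzy : (QuotientGroup.mk' A) z = (QuotientGroup.mk' A) y := by
      have h1 : (QuotientGroup.mk' A) (y * z) = 1 := (QuotientGroup.eq_one_iff _).mpr hrA
      rw [map_mul] at h1
      have h2 : ((QuotientGroup.mk' A) y)⁻¹ = (QuotientGroup.mk' A) z := inv_eq_of_mul_eq_one_right h1
      rw [← h2, ← map_inv, iy]
    have hg2 := gen2 (QuotientGroup.mk' A) hsurj hgen hzy
    have q1 : (QuotientGroup.mk' A) x ^ 3 = 1 := by rw [← map_pow, hx, map_one]
    have q2 : (QuotientGroup.mk' A) y * (QuotientGroup.mk' A) y = 1 := by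
      rw [← map_mul, hyy, map_one]
    have q3 : (QuotientGroup.mk' A) b * (QuotientGroup.mk' A) b = 1 := by
      rw [← map_mul, hbb, map_one]
    have q4 : (QuotientGroup.mk' A) y * (QuotientGroup.mk' A) b =
        (QuotientGroup.mk' A) b * (QuotientGroup.mk' A) y := by
      rw [← map_mul, ← map_mul, hab]
    have q5 : ((QuotientGroup.mk' A) x)⁻¹ * (QuotientGroup.mk' A) y * (QuotientGroup.mk' A) x =
        (QuotientGroup.mk' A) b := by
      rw [← map_inv, ← map_mul, ← map_mul, ← hb]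
    have q6 : ((QuotientGroup.mk' A) x)⁻¹ * (QuotientGroup.mk' A) b * (QuotientGroup.mk' A) x =
        (QuotientGroup.mk' A) y * (QuotientGroup.mk' A) b := by
      rw [← map_inv, ← map_mul, ← map_mul, ← map_mul, hxb]
    have hT : ∀ w ∈ T G, V4 ((QuotientGroup.mk' A) y) ((QuotientGroup.mk' A) b)
        ((QuotientGroup.mk' A) w) := by
      intro w hw
      have hw' : w ∈ closure {t : G | t ^ 2 = 1} := hw
      induction hw' using closure_induction with
      | mem t ht =>
        have ht' : t ^ 2 = 1 := ht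
        exact a4_sq q1 q2 q3 q4 q5 q6 hg2 (by rw [← map_pow, ht', map_one])
      | one => left; exact map_one _
      | mul v w hv1 hw1 ih1 ih2 =>
        rw [map_mul]
        exact v4_mul q2 q3 q4 (ih1 hv1) (ih2 hw1)
      | inv v hv1 ih =>
        rw [map_inv, v4_inv q2 q3 q4 (ih hv1)]
        exact ih hv1
    intro w hw
    have h1 := v4_sq q2 q3 q4 (hT w (r_le hw))
    have h2 : (QuotientGroup.mk' A) w ^ 3 = 1 := by rw [← map_pow, hR3 w hw, map_one]
    rw [pow_succ, pow_two, h1, one_mul] at h2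
    exact (QuotientGroup.eq_one_iff w).mp h2
  -- so `R` is trivial
  have hR1 : R G = ⊥ := by
    by_contra hne
    have hp : IsPGroup 3 (R G) := by
      intro g
      exact ⟨1, Subtype.ext (by rw [pow_one]; exact hR3 g.1 g.2)⟩
    haveI : Fact (Nat.Prime 3) := ⟨Nat.prime_three⟩
    haveI : Finite (R G) := inferInstance
    haveI : Group.IsNilpotent (R G) := hp.isNilpotent
    haveI : Nontrivial (R G) := (Subgroup.nontrivial_iff_ne_bot _).mpr hne
    have hlt := Group.IsSolvable.commutator_lt_top_of_nontrivial (R G)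
    have h1 : (commutator (R G)).map (R G).subtype = ⁅R G, R G⁆ := by
      rw [_root_.commutator_def, map_commutator, ← MonoidHom.range_eq_map, Subgroup.range_subtype]
    have h2 : commutator (R G) = ⊤ := by
      apply map_injective (R G).subtype_injective
      rw [h1, ← MonoidHom.range_eq_map, Subgroup.range_subtype, ← hA]
      apply le_antisymm _ hRA
      rw [hA]
      exact commutator_le_left _ _
    rw [h2] at hlt
    exact lt_irrefl _ hlt
  have hyz1 : y * z = 1 := by
    have h1 := hrR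
    rw [hR1, mem_bot] at h1
    exact h1
  have hzy : z = y := by
    have : y⁻¹ = z := inv_eq_of_mul_eq_one_right hyz1
    rw [← this, iy]
  have hg := gen2 (MonoidHom.id G) Function.surjective_id hgen (by simp [hzy])
  refine ⟨hfin, ?_⟩
  exact a4_card hx hyy hbb hab hb.symm hxb hg

end

end Pool.Agent.H324.EX
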